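import Mathlib
import Pool.Agent.Helper921_LeafSpaces.Obst2

/-!
# A necessary condition for a pair of leaf spaces to be realized
-/

namespace Pool.Agent.Results.MP_a3f59c_gt.HalfSpaces

open Pool.Agent.Helper921_LeafSpaces

/-- **The half-space obstruction.** If a pair `(Λ, Λ')` of simply connected `1`-manifolds is
realized by transverse foliations of the plane, then there is a map from the bent half-spaces of
`Λ'` to the half-spaces of `Λ`, and a map from the bent half-spaces of `Λ` to the half-spaces of
`Λ'`, both carrying disjoint half-spaces to disjoint half-spaces. -/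
theorem result {Λ Λ' : Type*} [TopologicalSpace Λ] [TopologicalSpace Λ']
    [SimplyConnectedSpace Λ] [SimplyConnectedSpace Λ'] (hΛ : IsOneManifold Λ)
    (hΛ' : IsOneManifold Λ') (h : Realized Λ Λ') :
    (∃ Φ : {H : Set Λ' // IsBentHalfSpace H} → {K : Set Λ // IsHalfSpace K},
      ∀ H H', Disjoint H.1 H'.1 → Disjoint (Φ H).1 (Φ H').1) ∧
    (∃ Ψ : {H : Set Λ // IsBentHalfSpace H} → {K : Set Λ' // IsHalfSpace K},
      ∀ H H', Disjoint H.1 H'.1 → Disjoint (Ψ H).1 (Ψ H').1) :=
  ⟨exists_halfSpace_map hΛ hΛ' h, exists_halfSpace_map hΛ' hΛ h.symm⟩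

end Pool.Agent.Results.MP_a3f59c_gt.HalfSpaces
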