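import Mathlib
import Pool.Agent.Helper921_LeafSpaces.Line

/-!
# The triples of leaf spaces two of whose members are real lines
-/

namespace Pool.Agent.Results.MP_a3f59c_gt.TwoLines

open Pool.Agent.Helper921_LeafSpaces

/-- **Classification of the realized triples with two Hausdorff members.** For a simply connected
`1`-manifold `Λ` the triple `(ℝ, ℝ, Λ)` is realized by three pairwise transverse foliations of
the plane if and only if `Λ` does not contain three pairwise disjoint bent half-spaces. -/
theorem result {Λ : Type*} [TopologicalSpace Λ] [SimplyConnectedSpace Λ]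
    (hΛ : IsOneManifold Λ) :
    RealizedTriple ℝ ℝ Λ ↔ ¬ ∃ H : Fin 3 → Set Λ, (∀ i, IsBentHalfSpace (H i)) ∧
      ∀ i j, i ≠ j → Disjoint (H i) (H j) :=
  realizedTriple_real_real_iff hΛ

end Pool.Agent.Results.MP_a3f59c_gt.TwoLines
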